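import Pool.Agent.R696.Tor.Data
set_option autoImplicit false
set_option maxRecDepth 100000

/-! Checks of the certificate. -/

namespace Pool.Agent.R696.Tor.Chk
open Pool.Agent.Helper817.AltCert Pool.Agent.R696.Tor.SCert Pool.Agent.R696.Tor.Data
open Pool.Agent.Helper928.Nuc.Tens

/-- multiply the coefficients by 3 -/
def sc3 : List (ℕ × ℕ × T) → List (ℕ × ℕ × T)
  | [] => []
  | q :: t => (Nat.mul 3 q.1, q.2.1, q.2.2) :: sc3 t

theorem chkW : wf TB 3 PB mm = true := by decide +kernel
theorem chkL : wl PB 3 = true := by decide +kernel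
theorem chkI : chkS TB 3 PB mm CT (keyL (sc3 FP)) (keyL (sc3 FN)) = true := by decide +kernel
theorem repP : repL TB 3 (sc3 FP) = true := by decide +kernel
theorem repN : repL TB 3 (sc3 FN) = true := by decide +kernel

section
variable {R : Type} [NonUnitalNonAssocRing R]

lemma valL_sc3 (x : ℕ → R) (L : List (ℕ × ℕ × T)) : valL x (sc3 L) = (3 : ℕ) • valL x L := by
  induction L with
  | nil => simp [sc3, valL]
  | cons q t ih =>
    show (3 * q.1) • q.2.2.val x + valL x (sc3 t) = (3 : ℕ) • (q.1 • q.2.2.val x + valL x t)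
    rw [ih, smul_add, mul_smul]

/-- the element -/
def F (x : ℕ → R) : R := valL x FP - valL x FN

/-- The super identity `3 F = 0` in three odd letters. -/
theorem three_F {P : ℕ → AddSubgroup R} (hR : SuperAlt R P) (x : ℕ → R) (hx : ∀ k < 3, x k ∈ P 1) :
    (3 : ℕ) • F x = 0 := by
  have h := smain hR TB 3 PB x mm chkW chkL hx CT (sc3 FP) (sc3 FN) chkI repP repN
  rw [valL_sc3, valL_sc3] at h
  unfold F
  rw [smul_sub, h, sub_self]

end

end Pool.Agent.R696.Tor.Chk
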