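import Pool.Agent.R696.Tor.Exp
set_option autoImplicit false
set_option maxRecDepth 100000

/-! The multilinear element and its torsion property. -/

namespace Pool.Agent.R696.Tor.Mult
open Pool.Agent.Helper817.AltCert Pool.Agent.R696.Tor.SCert Pool.Agent.R696.Tor.Data
open Pool.Agent.Helper928.Nuc.Tens Pool.Agent.Helper928.Nuc.Ext Pool.Agent.R696.Tor.Chk Pool.Agent.R696.Tor.Exp

/-- all index lists are fine -/
def allL : List (List (Fin 6) × T) → Bool
  | [] => true
  | p :: L => okl p.1 && allL L

def allF : List (ℕ × ℕ × T) → Bool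
  | [] => true
  | q :: L => allL (xp q.2.2) && allF L

theorem okP : allF FP = true := by decide +kernel
theorem okN : allF FN = true := by decide +kernel

section
variable {A : Type} [NonUnitalNonAssocRing A]

/-- alternating sum of multilinear monomials -/
def GM (g : ℕ → A) : List (List (Fin 6) × T) → A
  | [] => 0
  | p :: L => (srt p.1).1 • p.2.val g + GM g L

/-- multilinear sum attached to a list of super monomials -/
def GF (g : ℕ → A) : List (ℕ × ℕ × T) → A
  | [] => 0
  | q :: L => q.1 • GM g (xp q.2.2) + GF g L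

/-- the multilinear element of degree 6 in `g 0, …, g 5` -/
def G (g : ℕ → A) : A := GF g FP - GF g FN

lemma ext_sum (g : ℕ → A) (L : List (List (Fin 6) × T)) (h : allL L = true) :
    ext ((L.map fun p => te (p.2.val g) p.1).sum) = GM g L := by
  induction L with
  | nil => simp [GM]
  | cons p L ih =>
    have h' : (okl p.1 && allL L) = true := h
    rw [Bool.and_eq_true] at h'
    rw [List.map_cons, List.sum_cons, map_add, ih h'.2, ext_te_ok _ _ h'.1]
    rfl

lemma ext_valL (g : ℕ → A) (L : List (ℕ × ℕ × T)) (h : allF L = true) : ext (valL (XO g) L) = GF g L := by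
  induction L with
  | nil => simp [GF, valL]
  | cons q L ih =>
    have h' : (allL (xp q.2.2) && allF L) = true := h
    rw [Bool.and_eq_true] at h'
    show ext (q.1 • q.2.2.val (XO g) + valL (XO g) L) = q.1 • GM g (xp q.2.2) + GF g L
    rw [map_add, map_nsmul, ih h'.2, val_xp, ext_sum g _ h'.1]

lemma ext_F (g : ℕ → A) : ext (F (XO g)) = G g := by
  unfold F G
  rw [map_sub, ext_valL g FP okP, ext_valL g FN okN]

/-- `3 G = 0` in every alternative ring. -/
theorem three_G (hA : IsAlt A) (g : ℕ → A) : (3 : ℕ) • G g = 0 := by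
  have h := three_F (superAlt (n := 6) hA) (XO g) (fun k _ => XO_mem g k)
  have h2 := congrArg ext h
  rwa [map_nsmul, ext_F, map_zero] at h2

variable {B : Type} [NonUnitalNonAssocRing B]

lemma T_map (φ : A →ₙ+* B) (g : ℕ → A) (t : T) : φ (t.val g) = t.val (fun i => φ (g i)) := by
  induction t with
  | x i => rfl
  | m a b iha ihb =>
    show φ (a.val g * b.val g) = _
    rw [map_mul, iha, ihb]
    rfl

lemma GM_map (φ : A →ₙ+* B) (g : ℕ → A) (L : List (List (Fin 6) × T)) : φ (GM g L) = GM (fun i => φ (g i)) L := by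
  induction L with
  | nil => exact map_zero φ
  | cons p L ih =>
    show φ ((srt p.1).1 • p.2.val g + GM g L) = _
    rw [map_add, map_zsmul, T_map, ih]
    rfl

lemma GF_map (φ : A →ₙ+* B) (g : ℕ → A) (L : List (ℕ × ℕ × T)) : φ (GF g L) = GF (fun i => φ (g i)) L := by
  induction L with
  | nil => exact map_zero φ
  | cons q L ih =>
    show φ (q.1 • GM g (xp q.2.2) + GF g L) = _
    rw [map_add, map_nsmul, GM_map, ih]
    rfl

/-- naturality of `G` -/
lemma G_map (φ : A →ₙ+* B) (g : ℕ → A) : φ (G g) = G (fun i => φ (g i)) := by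
  unfold G
  rw [map_sub, GF_map, GF_map]

end

end Pool.Agent.R696.Tor.Mult
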