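import Pool.Agent.R696.Tor.Mod
import Pool.Agent.R696.Tor.Mult
set_option autoImplicit false
set_option maxRecDepth 100000

/-! The value of the multilinear element in the 49-dimensional algebra. -/

namespace Pool.Agent.R696.Tor.Eval
open Pool.Agent.Helper817.AltCert Pool.Agent.R696.Tor.Data
open Pool.Agent.Helper928.Nuc.Tens Pool.Agent.R696.Tor.Exp Pool.Agent.R696.Tor.Mult
open Pool.Agent.R696.Tor.Tab Pool.Agent.R696.Tor.Mod

/-- sparse value of a monomial at the first six basis vectors -/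
def mv : T → List (ℕ × ℕ)
  | .x i => [(Nat.mod i 6, 1)]
  | .m a b => mulL tb (mv a) (mv b)

/-- residue modulo 3 -/
def r3 (z : ℤ) : ℕ := (z % 3).toNat

def evL : List (List (Fin 6) × T) → ℕ
  | [] => 0
  | p :: L => Nat.add (cond (Nat.beq (r3 (srt p.1).1) 0) 0 (Nat.mul (r3 (srt p.1).1) (cfN 48 (mv p.2)))) (evL L)

def evF : List (ℕ × ℕ × T) → ℕ
  | [] => 0
  | q :: L => Nat.add (Nat.mul q.1 (evL (xp q.2.2))) (evF L)

theorem ev_ne : Nat.beq (Nat.mod (Nat.add (evF FP) (Nat.mul 2 (evF FN))) 3) 0 = false := by decide +kernel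

section
variable {K : Type} [CommRing K] (h3 : (3 : K) = 0)

/-- the algebra -/
abbrev M (K : Type) : Type := TA K 49 tb

include h3

lemma zc (z : ℤ) : (z : K) = ((r3 z : ℕ) : K) := by
  unfold r3
  have h1 : 0 ≤ z % 3 := Int.emod_nonneg z (by norm_num)
  have h2 : ((z % 3).toNat : ℤ) = z % 3 := Int.toNat_of_nonneg h1
  have h4 : (((z % 3).toNat : ℕ) : K) = ((z % 3 : ℤ) : K) := by
    rw [← Int.cast_natCast, h2]
  rw [h4]
  conv_lhs => rw [← Int.mul_ediv_add_emod z 3]
  push_cast
  rw [h3, zero_mul, zero_add]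

lemma isAltM : IsAlt (M K) := (TA.isAlt_of_chk h3 chk_tb).1

/-- the six generators -/
def gM (K : Type) [CommRing K] (i : ℕ) : M K := TA.e (i % 6)

omit h3 in
lemma bdd_append {N : ℕ} {L L' : List (ℕ × ℕ)} (h : bdd N L = true) (h' : bdd N L' = true) : bdd N (L ++ L') = true := by
  unfold bdd at *
  rw [List.all_append, h, h']
  rfl

omit h3 in
lemma bdd_map {N : ℕ} {L : List (ℕ × ℕ)} (h : bdd N L = true) (c : ℕ) :
    bdd N (L.map fun r => (r.1, Nat.mul c r.2)) = true := by
  unfold bdd at *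
  rw [List.all_map]
  exact h

omit h3 in
lemma bdd_mulL {N : ℕ} {t : ℕ → ℕ → List (ℕ × ℕ)} (hb : ∀ i < N, ∀ j < N, bdd N (t i j) = true) {L L' : List (ℕ × ℕ)}
    (h : bdd N L = true) (h' : bdd N L' = true) : bdd N (mulL t L L') = true := by
  induction L with
  | nil => rfl
  | cons p L ih =>
    unfold mulL
    have hp : p.1 < N ∧ bdd N L = true := by
      unfold bdd at h
      rw [List.all_cons, Bool.and_eq_true, Nat.ble_eq] at h
      exact ⟨h.1, h.2⟩
    refine bdd_append ?_ (ih hp.2)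
    clear ih h
    induction L' with
    | nil => rfl
    | cons q L' ih' =>
      have hq : q.1 < N ∧ bdd N L' = true := by
        unfold bdd at h'
        rw [List.all_cons, Bool.and_eq_true, Nat.ble_eq] at h'
        exact ⟨h'.1, h'.2⟩
      rw [List.flatMap_cons]
      exact bdd_append (bdd_map (hb p.1 hp.1 q.1 hq.1) _) (ih' hq.2)

lemma mv_eq (s : T) : bdd 49 (mv s) = true ∧ s.val (gM K) = TA.vec (mv s) := by
  have hb := (TA.isAlt_of_chk h3 chk_tb).2.2
  induction s with
  | x i =>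
    refine ⟨?_, rfl⟩
    have h6 : i % 6 < 6 := Nat.mod_lt _ (by norm_num)
    show bdd 49 [(i % 6, 1)] = true
    unfold bdd
    rw [List.all_cons, List.all_nil, Bool.and_true, Nat.ble_eq]
    show i % 6 + 1 ≤ 49
    omega
  | m a b iha ihb =>
    refine ⟨bdd_mulL hb iha.1 ihb.1, ?_⟩
    show a.val (gM K) * b.val (gM K) = _
    rw [iha.2, ihb.2]
    exact TA.vec_mul _ _ iha.1 ihb.1

/-- top coordinate -/
def tc (K : Type) [CommRing K] : M K →+ K where
  toFun v := v (48 : Fin 49)
  map_zero' := rfl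
  map_add' := fun _ _ => rfl

lemma tc_GM (L : List (List (Fin 6) × T)) : tc K (GM (gM K) L) = ((evL L : ℕ) : K) := by
  induction L with
  | nil => simp [GM, evL]
  | cons p L ih =>
    show tc K ((srt p.1).1 • p.2.val (gM K) + GM (gM K) L) = _
    rw [map_add, ih, map_zsmul, (mv_eq h3 p.2).2]
    have h1 : tc K (TA.vec (mv p.2) : M K) = ((cfN 48 (mv p.2) : ℕ) : K) := rfl
    rw [h1, zsmul_eq_mul, zc h3]
    have h2 : evL (p :: L) = (bif (Nat.beq (r3 (srt p.1).1) 0) then 0 else (r3 (srt p.1).1 * cfN 48 (mv p.2))) + evL L := rfl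
    rw [h2]
    cases hb : Nat.beq (r3 (srt p.1).1) 0 with
    | true =>
      rw [Nat.eq_of_beq_eq_true hb]; simp
    | false =>
      rw [cond_false]; push_cast; rfl

lemma tc_GF (L : List (ℕ × ℕ × T)) : tc K (GF (gM K) L) = ((evF L : ℕ) : K) := by
  induction L with
  | nil => simp [GF, evF]
  | cons q L ih =>
    show tc K (q.1 • GM (gM K) (xp q.2.2) + GF (gM K) L) = _
    rw [map_add, ih, map_nsmul, tc_GM h3]
    have h2 : evF (q :: L) = q.1 * evL (xp q.2.2) + evF L := rfl
    rw [h2, nsmul_eq_mul]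
    push_cast; rfl

/-- the element does not vanish in the algebra -/
theorem G_ne [Nontrivial K] : G (gM K) ≠ 0 := by
  intro h
  have h1 : tc K (G (gM K)) = 0 := by rw [h]; exact map_zero _
  unfold G at h1
  rw [map_sub, tc_GF h3, tc_GF h3] at h1
  have h2 := ev_ne
  set n := evF FP + 2 * evF FN with hn
  have h4 : n % 3 ≠ 0 := Nat.ne_of_beq_eq_false h2
  have h5 : ((n : ℕ) : K) = 0 := by
    rw [hn]; push_cast
    have : (2 : K) = -1 := by linear_combination h3
    rw [this]
    linear_combination h1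
  have h6 : (((n : ℤ)) : K) = 0 := by rw [Int.cast_natCast]; exact h5
  rw [zc h3] at h6
  have h7 : r3 (n : ℤ) = 1 ∨ r3 (n : ℤ) = 2 := by
    unfold r3
    omega
  rcases h7 with h7 | h7
  · rw [h7] at h6
    simp at h6
  · rw [h7] at h6
    have h8 : (2 : K) = 0 := by exact_mod_cast h6
    exact one_ne_zero (α := K) (by linear_combination h3 - h8)

end

end Pool.Agent.R696.Tor.Eval
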