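import Pool.Agent.R696.Tor.Chk
set_option autoImplicit false

/-! Expansion of super monomials into multilinear monomials and extraction of the top coefficient. -/

namespace Pool.Agent.R696.Tor.Exp
open Pool.Agent.Helper817.AltCert Pool.Agent.R696.Tor.SCert Pool.Agent.R696.Tor.Data
open Pool.Agent.Helper928.Nuc.Tens Pool.Agent.Helper928.Nuc.Ext Pool.Agent.R696.Tor.Chk

/-- expansion: the odd letter `i` is replaced by the sum of the letters `2i` and `2i+1` -/
def xp : T → List (List (Fin 6) × T)
  | .x i => [([Fin.ofNat 6 (Nat.mul 2 i)], .x (Nat.mul 2 i)), ([Fin.ofNat 6 (Nat.add (Nat.mul 2 i) 1)], .x (Nat.add (Nat.mul 2 i) 1))]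
  | .m a b => (xp a).flatMap fun p => (xp b).map fun q => (p.1 ++ q.1, .m p.2 q.2)

/-- insertion of a letter into a sorted list, with sign; `(0, _)` when the letter occurs -/
def ins (i : Fin 6) : List (Fin 6) → ℤ × List (Fin 6)
  | [] => (1, [i])
  | j :: l => cond (Nat.ble (Nat.add i.1 1) j.1) (1, i :: j :: l)
      (cond (Nat.beq i.1 j.1) (0, []) (- (ins i l).1, j :: (ins i l).2))

/-- sorting with sign -/
def srt : List (Fin 6) → ℤ × List (Fin 6)
  | [] => (1, [])
  | i :: l => ((srt l).1 * (ins i (srt l).2).1, (ins i (srt l).2).2)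

lemma gen_sq (i : Fin 6) : gen ℤ 6 i * gen ℤ 6 i = 0 := by
  unfold gen
  exact ExteriorAlgebra.ι_sq_zero _

lemma E_ins (i : Fin 6) (l : List (Fin 6)) : E ℤ 6 (i :: l) = (ins i l).1 • E ℤ 6 (ins i l).2 := by
  induction l with
  | nil => unfold ins; simp
  | cons j l ih =>
    unfold ins
    cases h1 : Nat.ble (Nat.add i.1 1) j.1 with
    | true => simp
    | false =>
      cases h2 : Nat.beq i.1 j.1 with
      | true =>
        have h3 : i = j := Fin.ext (Nat.eq_of_beq_eq_true h2)
        rw [E_cons, E_cons, h3, ← mul_assoc, gen_sq]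
        simp
      | false =>
        simp only [cond_false]
        rw [E_cons, E_cons, ← mul_assoc, gen_swap, neg_mul, mul_assoc, ← E_cons, ih, E_cons ℤ 6 j, neg_smul, mul_smul_comm]

lemma E_srt (l : List (Fin 6)) : E ℤ 6 l = (srt l).1 • E ℤ 6 (srt l).2 := by
  induction l with
  | nil => unfold srt; simp
  | cons i l ih =>
    show _ = ((srt l).1 * (ins i (srt l).2).1) • E ℤ 6 (ins i (srt l).2).2
    rw [mul_smul, ← E_ins, E_cons, ih, mul_smul_comm, ← E_cons]

section
variable {A : Type} [NonUnitalNonAssocRing A]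

lemma te_srt (a : A) (l : List (Fin 6)) : te a l = (srt l).1 • te a (srt l).2 := by
  have h5 : ∀ (m : ℤ) (a : A) (u : ExteriorAlgebra ℤ (Fin 6 → ℤ)), tm a (m • u) = m • tm a u := by
    intro m a u
    exact map_zsmul (AddMonoidHom.mk' (fun u => (tm a u : TS A 6)) (fun u v => tm_addr a u v)) m u
  unfold te
  rw [E_srt l, h5]

/-- the full list -/
def full : List (Fin 6) := [0, 1, 2, 3, 4, 5]

/-- the list of indices is full or has sign zero -/
def okl (l : List (Fin 6)) : Bool :=
  decide ((srt l).1 = 0) || decide ((srt l).2 = full)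

lemma ext_te_ok (a : A) (l : List (Fin 6)) (h : okl l = true) : ext (te a l) = (srt l).1 • a := by
  unfold okl at h
  rw [Bool.or_eq_true, decide_eq_true_eq, decide_eq_true_eq] at h
  rw [te_srt, map_zsmul]
  rcases h with h | h
  · rw [h, zero_smul, zero_smul]
  · rw [h]
    have h2 : full = List.ofFn (fun i : Fin 6 => i) := by decide
    rw [h2, ext_te]

/-- the odd letters -/
noncomputable def XO (g : ℕ → A) (i : ℕ) : TS A 6 :=
  te (g (2 * i)) [Fin.ofNat 6 (2 * i)] + te (g (2 * i + 1)) [Fin.ofNat 6 (2 * i + 1)]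

lemma XO_mem (g : ℕ → A) (i : ℕ) : XO g i ∈ PP (A := A) (n := 6) 1 :=
  AddSubgroup.add_mem _ (te_mem _ [_]) (te_mem _ [_])

lemma sum_mul_sum {R : Type} [NonUnitalNonAssocRing R] {α β γ : Type} (L : List α) (L' : List β) (f : α → R) (h : β → R)
    (F : α → β → γ) (k : γ → R) (hk : ∀ a b, k (F a b) = f a * h b) :
    (L.map f).sum * (L'.map h).sum = ((L.flatMap fun p => L'.map fun q => F p q).map k).sum := by
  induction L with
  | nil => simp
  | cons a L ih =>
    rw [List.map_cons, List.sum_cons, add_mul, ih, List.flatMap_cons, List.map_append, List.sum_append]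
    congr 1
    rw [List.map_map, ← List.sum_map_mul_left]
    congr 1
    apply List.map_congr_left
    intro b _
    exact (hk a b).symm

lemma val_xp (g : ℕ → A) (t : T) : t.val (XO g) = ((xp t).map fun p => te (p.2.val g) p.1).sum := by
  induction t with
  | x i =>
    show XO g i = _
    unfold xp XO
    simp [T.val]
  | m a b iha ihb =>
    show a.val (XO g) * b.val (XO g) = _
    rw [iha, ihb]
    exact sum_mul_sum _ _ _ _ _ _ (fun p q => (te_mul _ _ _ _).symm)

end

end Pool.Agent.R696.Tor.Exp
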