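import Pool.Agent.Helper817.AltCert
set_option autoImplicit false

/-!
Kernel-checkable certificates for identities of super-alternative rings in odd letters.

Monomials are numbered as in `Helper817.AltCert`; `PB` is the table of parities.
-/

namespace Pool.Agent.R696.Tor.SCert
open Pool.Agent.Helper817.AltCert Pool.Agent.Helper928.Nuc.Tens

section
variable (TB nl PB : ℕ)

/-- parity -/
def pb (k : ℕ) : ℕ := Nat.mod (Nat.shiftRight PB k) 2

/-- check of the monomials `nl + j`, `j < m` -/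
def wf : ℕ → Bool
  | 0 => true
  | m + 1 => (Nat.ble (Nat.add (lf TB (Nat.add nl m)) 1) (Nat.add nl m) &&
      (Nat.ble (Nat.add (rf TB (Nat.add nl m)) 1) (Nat.add nl m) &&
      Nat.beq (pb PB (Nat.add nl m))
        (Nat.mod (Nat.add (pb PB (lf TB (Nat.add nl m))) (pb PB (rf TB (Nat.add nl m)))) 2))) && wf m

/-- the letters are odd -/
def wl : ℕ → Bool
  | 0 => true
  | m + 1 => Nat.beq (pb PB m) 1 && wl m

lemma pb_lt (k : ℕ) : pb PB k < 2 := Nat.mod_lt _ (by norm_num)

lemma wl_sound : ∀ m : ℕ, wl PB m = true → ∀ k < m, pb PB k = 1 := by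
  intro m
  induction m with
  | zero => intro _ k hk; omega
  | succ m ih =>
    intro h k hk
    unfold wl at h
    simp only [Bool.and_eq_true, Nat.beq_eq] at h
    rcases Nat.lt_succ_iff_lt_or_eq.mp hk with h1 | h1
    · exact ih h.2 k h1
    · rw [h1]; exact h.1

lemma wf_sound : ∀ m : ℕ, wf TB nl PB m = true → ∀ k, nl ≤ k → k < nl + m →
    lf TB k < k ∧ rf TB k < k ∧ pb PB k = (pb PB (lf TB k) + pb PB (rf TB k)) % 2 := by
  intro m
  induction m with
  | zero => intro _ k hk hk'; omega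
  | succ m ih =>
    intro h k hk hk'
    unfold wf at h
    simp only [Bool.and_eq_true, Nat.beq_eq, Nat.ble_eq] at h
    rcases Nat.lt_succ_iff_lt_or_eq.mp (show k < (nl + m).succ by omega) with h1 | h1
    · exact ih h.2 k hk h1
    · subst h1
      obtain ⟨⟨h2, h3, h4⟩, _⟩ := h
      exact ⟨h2, h3, h4⟩

/-- the sign pattern of the identity of type `ty` on elements of the given parities -/
def spat (ty i j k : ℕ) : ℕ :=
  cond (Nat.beq ty 0) (Nat.mul i j)
  (cond (Nat.beq ty 1) (Nat.mul j k)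
  (cond (Nat.beq ty 2) (Nat.mod (Nat.add (Nat.mul i j) (Nat.add (Nat.mul i k) (Nat.mul j k))) 2)
  (Nat.mod (Nat.add 1 (Nat.mul i (Nat.add j k))) 2)))

/-- check of the basic identity, `ty` is the type plus 4 times the pattern -/
def sbase (ty a b c d : ℕ) : Bool :=
  (sp TB nl a (lf TB a) (rf TB a) && (sp TB nl (lf TB a) (lf TB (lf TB a)) (rf TB (lf TB a)) &&
      (sp TB nl b (lf TB (lf TB a)) (rf TB b) && (sp TB nl (rf TB b) (rf TB (lf TB a)) (rf TB a) &&
  (Nat.beq (Nat.div ty 4) (spat (Nat.mod ty 4) (pb PB (lf TB (lf TB a))) (pb PB (rf TB (lf TB a))) (pb PB (rf TB a))) &&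
  cond (Nat.beq (Nat.mod ty 4) 0) -- (vu)w, v(uw)
    (sp TB nl c (lf TB c) (rf TB a) && (sp TB nl (lf TB c) (rf TB (lf TB a)) (lf TB (lf TB a)) &&
      (sp TB nl d (rf TB (lf TB a)) (rf TB d) && sp TB nl (rf TB d) (lf TB (lf TB a)) (rf TB a))))
  (cond (Nat.beq (Nat.mod ty 4) 1) -- (uw)v, u(wv)
    (sp TB nl c (lf TB c) (rf TB (lf TB a)) && (sp TB nl (lf TB c) (lf TB (lf TB a)) (rf TB a) &&
      (sp TB nl d (lf TB (lf TB a)) (rf TB d) && sp TB nl (rf TB d) (rf TB a) (rf TB (lf TB a)))))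
  (cond (Nat.beq (Nat.mod ty 4) 2) -- (wv)u, w(vu)
    (sp TB nl c (lf TB c) (lf TB (lf TB a)) && (sp TB nl (lf TB c) (rf TB a) (rf TB (lf TB a)) &&
      (sp TB nl d (rf TB a) (rf TB d) && sp TB nl (rf TB d) (rf TB (lf TB a)) (lf TB (lf TB a)))))
  -- (vw)u, v(wu)
    (sp TB nl c (lf TB c) (lf TB (lf TB a)) && (sp TB nl (lf TB c) (rf TB (lf TB a)) (rf TB a) &&
      (sp TB nl d (rf TB (lf TB a)) (rf TB d) && sp TB nl (rf TB d) (rf TB a) (lf TB (lf TB a))))))))))))

end

section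
variable {R : Type} [NonUnitalNonAssocRing R]

/-- the value of an instance -/
def pv (p : ℕ) (a b c d : R) : R := cond (Nat.beq p 0) (a - b + c - d) (a - b - c + d)

lemma pv_mull (p : ℕ) (z a b c d : R) : pv p (z * a) (z * b) (z * c) (z * d) = z * pv p a b c d := by
  unfold pv
  cases Nat.beq p 0 <;> simp only [cond_true, cond_false, mul_sub, mul_add]

lemma pv_mulr (p : ℕ) (z a b c d : R) : pv p (a * z) (b * z) (c * z) (d * z) = pv p a b c d * z := by
  unfold pv
  cases Nat.beq p 0 <;> simp only [cond_true, cond_false, sub_mul, add_mul]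

lemma pv0 (a b c d : R) : pv 0 a b c d = a - b + c - d := rfl
lemma pv1 (a b c d : R) : pv 1 a b c d = a - b - c + d := rfl

variable {P : ℕ → AddSubgroup R} (hR : SuperAlt R P)
include hR

lemma s0 {i j k : ℕ} (hi : i < 2) (hj : j < 2) {u v w : R} (hu : u ∈ P i) (hv : v ∈ P j) (hw : w ∈ P k) :
    pv (i * j) ((u * v) * w) (u * (v * w)) ((v * u) * w) (v * (u * w)) = 0 := by
  have h := hR.left hi hj hu hv hw
  unfold as at h
  interval_cases i <;> interval_cases j
  · rw [show (0 * 0 : ℕ) = 0 from rfl, pv0]; simp at h ⊢; linear_combination (norm := abel) h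
  · rw [show (0 * 1 : ℕ) = 0 from rfl, pv0]; simp at h ⊢; linear_combination (norm := abel) h
  · rw [show (1 * 0 : ℕ) = 0 from rfl, pv0]; simp at h ⊢; linear_combination (norm := abel) h
  · rw [show (1 * 1 : ℕ) = 1 from rfl, pv1]; simp at h ⊢; linear_combination (norm := abel) h

lemma s1 {i j k : ℕ} (hj : j < 2) (hk : k < 2) {u v w : R} (hu : u ∈ P i) (hv : v ∈ P j) (hw : w ∈ P k) :
    pv (j * k) ((u * v) * w) (u * (v * w)) ((u * w) * v) (u * (w * v)) = 0 := by
  have h := hR.right hj hk hu hv hw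
  unfold as at h
  interval_cases j <;> interval_cases k
  · rw [show (0 * 0 : ℕ) = 0 from rfl, pv0]; simp at h ⊢; linear_combination (norm := abel) h
  · rw [show (0 * 1 : ℕ) = 0 from rfl, pv0]; simp at h ⊢; linear_combination (norm := abel) h
  · rw [show (1 * 0 : ℕ) = 0 from rfl, pv0]; simp at h ⊢; linear_combination (norm := abel) h
  · rw [show (1 * 1 : ℕ) = 1 from rfl, pv1]; simp at h ⊢; linear_combination (norm := abel) h

omit [NonUnitalNonAssocRing R] hR in
lemma sgn_cases {M : Type} [AddCommGroup M] (i j : ℕ) (hi : i < 2) (hj : j < 2) (x y : M)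
    (h : x = (if i * j = 1 then (1 : ℤ) else -1) • y) : (i * j = 0 ∧ x = -y) ∨ (i * j = 1 ∧ x = y) := by
  interval_cases i <;> interval_cases j <;> simp at h ⊢ <;> exact h

lemma s2 {i j k : ℕ} (hi : i < 2) (hj : j < 2) (hk : k < 2) {u v w : R} (hu : u ∈ P i) (hv : v ∈ P j) (hw : w ∈ P k) :
    pv ((i * j + (i * k + j * k)) % 2) ((u * v) * w) (u * (v * w)) ((w * v) * u) (w * (v * u)) = 0 := by
  have h1 := sgn_cases i j hi hj _ _ (hR.left hi hj hu hv hw)
  have h2 := sgn_cases i k hi hk _ _ (hR.right hi hk hv hu hw)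
  have h3 := sgn_cases j k hj hk _ _ (hR.left hj hk hv hw hu)
  unfold as at h1 h2 h3
  rcases h1 with ⟨a1, h1⟩ | ⟨a1, h1⟩ <;> rcases h2 with ⟨a2, h2⟩ | ⟨a2, h2⟩ <;> rcases h3 with ⟨a3, h3⟩ | ⟨a3, h3⟩ <;>
    rw [a1, a2, a3]
  · rw [show ((0 + (0 + 0)) % 2 : ℕ) = 0 from rfl, pv0]; linear_combination (norm := abel) h1 - h2 + h3
  · rw [show ((0 + (0 + 1)) % 2 : ℕ) = 1 from rfl, pv1]; linear_combination (norm := abel) h1 - h2 + h3
  · rw [show ((0 + (1 + 0)) % 2 : ℕ) = 1 from rfl, pv1]; linear_combination (norm := abel) h1 - h2 - h3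
  · rw [show ((0 + (1 + 1)) % 2 : ℕ) = 0 from rfl, pv0]; linear_combination (norm := abel) h1 - h2 - h3
  · rw [show ((1 + (0 + 0)) % 2 : ℕ) = 1 from rfl, pv1]; linear_combination (norm := abel) h1 + h2 - h3
  · rw [show ((1 + (0 + 1)) % 2 : ℕ) = 0 from rfl, pv0]; linear_combination (norm := abel) h1 + h2 - h3
  · rw [show ((1 + (1 + 0)) % 2 : ℕ) = 0 from rfl, pv0]; linear_combination (norm := abel) h1 + h2 + h3
  · rw [show ((1 + (1 + 1)) % 2 : ℕ) = 1 from rfl, pv1]; linear_combination (norm := abel) h1 + h2 + h3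

lemma s3 {i j k : ℕ} (hi : i < 2) (hj : j < 2) (hk : k < 2) {u v w : R} (hu : u ∈ P i) (hv : v ∈ P j) (hw : w ∈ P k) :
    pv ((1 + i * (j + k)) % 2) ((u * v) * w) (u * (v * w)) ((v * w) * u) (v * (w * u)) = 0 := by
  have h1 := sgn_cases i j hi hj _ _ (hR.left hi hj hu hv hw)
  have h2 := sgn_cases i k hi hk _ _ (hR.right hi hk hv hu hw)
  unfold as at h1 h2
  rw [mul_add]
  rcases h1 with ⟨a1, h1⟩ | ⟨a1, h1⟩ <;> rcases h2 with ⟨a2, h2⟩ | ⟨a2, h2⟩ <;> rw [a1, a2]
  · rw [show ((1 + (0 + 0)) % 2 : ℕ) = 1 from rfl, pv1]; linear_combination (norm := abel) h1 - h2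
  · rw [show ((1 + (0 + 1)) % 2 : ℕ) = 0 from rfl, pv0]; linear_combination (norm := abel) h1 - h2
  · rw [show ((1 + (1 + 0)) % 2 : ℕ) = 0 from rfl, pv0]; linear_combination (norm := abel) h1 + h2
  · rw [show ((1 + (1 + 1)) % 2 : ℕ) = 1 from rfl, pv1]; linear_combination (norm := abel) h1 + h2

variable (TB nl PB : ℕ) (x : ℕ → R) (m : ℕ) (hwf : wf TB nl PB m = true) (hwl : wl PB nl = true)
  (hx : ∀ k < nl, x k ∈ P 1)
include hwf hwl hx

lemma V_mem : ∀ k, k < nl + m → V TB nl x k ∈ P (pb PB k) := by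
  intro k
  induction k using Nat.strong_induction_on with
  | _ k ih =>
    intro hk
    by_cases h : nl ≤ k
    · obtain ⟨h1, h2, h3⟩ := wf_sound TB nl PB m hwf k h hk
      rw [V, if_pos h, dif_pos ⟨h1, h2⟩, h3]
      exact hR.mul_mem (ih _ h1 (by omega)) (ih _ h2 (by omega))
    · have h' : k < nl := by omega
      rw [V_lt TB nl x h', wl_sound PB nl hwl k h']
      exact hx k h'

lemma sbase_sound (ty a b c d : ℕ) (ha : a < nl + m) (h : sbase TB nl PB ty a b c d = true) :
    pv (ty / 4) (V TB nl x a) (V TB nl x b) (V TB nl x c) (V TB nl x d) = 0 := by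
  have S := fun (k i j : ℕ) (h : sp TB nl k i j = true) => V_sp TB nl x h
  have W := V_mem hR TB nl PB x m hwf hwl hx
  have L := fun (k i j : ℕ) (h : sp TB nl k i j = true) => (show i < k ∧ j < k by
    unfold sp at h
    simp only [Bool.and_eq_true, Nat.beq_eq, Nat.ble_eq] at h
    obtain ⟨_, _, _, h4, h5⟩ := h
    have h4' : i + 1 ≤ k := h4
    have h5' : j + 1 ≤ k := h5
    omega)
  unfold sbase at h
  simp only [Bool.and_eq_true, Nat.beq_eq] at h
  obtain ⟨s1, s2, s3, s4, hp, h⟩ := h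
  have hp' : ty / 4 = spat (ty % 4) (pb PB (lf TB (lf TB a))) (pb PB (rf TB (lf TB a))) (pb PB (rf TB a)) := hp
  have l1 := L _ _ _ s1
  have l2 := L _ _ _ s2
  have mu := W (lf TB (lf TB a)) (by omega)
  have mv := W (rf TB (lf TB a)) (by omega)
  have mw := W (rf TB a) (by omega)
  have pu := pb_lt PB (lf TB (lf TB a))
  have pv' := pb_lt PB (rf TB (lf TB a))
  have pw := pb_lt PB (rf TB a)
  cases hb : Nat.beq (Nat.mod ty 4) 0 with
  | true =>
    rw [hb, cond_true] at h
    have hty : ty % 4 = 0 := Nat.eq_of_beq_eq_true hb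
    simp only [Bool.and_eq_true] at h
    obtain ⟨s5, s6, s7, s8⟩ := h
    rw [hp', hty]
    have H := Pool.Agent.R696.Tor.SCert.s0 hR pu pv' mu mv mw
    rw [S _ _ _ s1, S _ _ _ s3, S _ _ _ s5, S _ _ _ s7, S _ _ _ s2, S _ _ _ s4, S _ _ _ s6, S _ _ _ s8]
    exact H
  | false =>
    rw [hb, cond_false] at h
    have hty : ty % 4 ≠ 0 := Nat.ne_of_beq_eq_false hb
    cases hb : Nat.beq (Nat.mod ty 4) 1 with
    | true =>
      rw [hb, cond_true] at h
      have hty : ty % 4 = 1 := Nat.eq_of_beq_eq_true hb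
      simp only [Bool.and_eq_true] at h
      obtain ⟨s5, s6, s7, s8⟩ := h
      rw [hp', hty]
      have H := Pool.Agent.R696.Tor.SCert.s1 hR pv' pw mu mv mw
      rw [S _ _ _ s1, S _ _ _ s3, S _ _ _ s5, S _ _ _ s7, S _ _ _ s2, S _ _ _ s4, S _ _ _ s6, S _ _ _ s8]
      exact H
    | false =>
      rw [hb, cond_false] at h
      have hty' : ty % 4 ≠ 1 := Nat.ne_of_beq_eq_false hb
      cases hb : Nat.beq (Nat.mod ty 4) 2 with
      | true =>
        rw [hb, cond_true] at h
        have hty : ty % 4 = 2 := Nat.eq_of_beq_eq_true hb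
        simp only [Bool.and_eq_true] at h
        obtain ⟨s5, s6, s7, s8⟩ := h
        rw [hp', hty]
        have H := Pool.Agent.R696.Tor.SCert.s2 hR pu pv' pw mu mv mw
        rw [S _ _ _ s1, S _ _ _ s3, S _ _ _ s5, S _ _ _ s7, S _ _ _ s2, S _ _ _ s4, S _ _ _ s6, S _ _ _ s8]
        exact H
      | false =>
        rw [hb, cond_false] at h
        have hty'' : ty % 4 ≠ 2 := Nat.ne_of_beq_eq_false hb
        have hty : ty % 4 = 3 := by omega
        simp only [Bool.and_eq_true] at h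
        obtain ⟨s5, s6, s7, s8⟩ := h
        rw [hp', hty]
        have H := Pool.Agent.R696.Tor.SCert.s3 hR pu pv' pw mu mv mw
        rw [S _ _ _ s1, S _ _ _ s3, S _ _ _ s5, S _ _ _ s7, S _ _ _ s2, S _ _ _ s4, S _ _ _ s6, S _ _ _ s8]
        exact H

lemma swalk_sound (ty : ℕ) (n : ℕ) : ∀ p a b c d : ℕ, a < nl + m → walk TB nl (sbase TB nl PB ty) n p a b c d = true →
    pv (ty / 4) (V TB nl x a) (V TB nl x b) (V TB nl x c) (V TB nl x d) = 0 := by
  have S := fun (k i j : ℕ) (h : sp TB nl k i j = true) => V_sp TB nl x h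
  have L := fun (k i j : ℕ) (h : sp TB nl k i j = true) => (show i < k ∧ j < k by
    unfold sp at h
    simp only [Bool.and_eq_true, Nat.beq_eq, Nat.ble_eq] at h
    obtain ⟨_, _, _, h4, h5⟩ := h
    have h4' : i + 1 ≤ k := h4
    have h5' : j + 1 ≤ k := h5
    omega)
  induction n with
  | zero => intro p a b c d ha h; exact sbase_sound hR TB nl PB x m hwf hwl hx ty a b c d ha h
  | succ n ih =>
    intro p a b c d ha h
    unfold walk at h
    cases hb : Nat.beq (Nat.mod p 2) 0 with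
    | true =>
      rw [hb, cond_true] at h
      simp only [Bool.and_eq_true] at h
      obtain ⟨s1, s2, s3, s4, s5⟩ := h
      have l1 := L _ _ _ s1
      rw [S _ _ _ s1, S _ _ _ s2, S _ _ _ s3, S _ _ _ s4, pv_mull, ih _ _ _ _ _ (by omega) s5, mul_zero]
    | false =>
      rw [hb, cond_false] at h
      simp only [Bool.and_eq_true] at h
      obtain ⟨s1, s2, s3, s4, s5⟩ := h
      have l1 := L _ _ _ s1
      rw [S _ _ _ s1, S _ _ _ s2, S _ _ _ s3, S _ _ _ s4, pv_mulr, ih _ _ _ _ _ (by omega) s5, zero_mul]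

end

/-! ### codes of instances -/

/-- positive monomials -/
def sP (i : ℕ) : List ℕ := cond (Nat.beq (Nat.div (cty i) 4) 0) [ca i, cc i] [ca i, cd i]
/-- negative monomials -/
def sN (i : ℕ) : List ℕ := cond (Nat.beq (Nat.div (cty i) 4) 0) [cb i, cd i] [cb i, cc i]
/-- left hand side -/
def pls (i : ℕ) : List ℕ := cond (csg i) (sP i) (sN i)
/-- right hand side -/
def nls (i : ℕ) : List ℕ := cond (csg i) (sN i) (sP i)

/-- check of an instance -/
def okS (TB nl PB m i : ℕ) : Bool :=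
  Nat.ble (Nat.add (ca i) 1) (Nat.add nl m) &&
  walk TB nl (sbase TB nl PB (cty i)) (Nat.mod (Nat.shiftRight i 4) 16) (Nat.mod (Nat.shiftRight i 8) 256) (ca i) (cb i)
    (cc i) (cd i)

def wps (f : ℕ → ℕ) (i : ℕ) : ℕ := Nat.mul (cco i) (ws f (pls i))
def wns (f : ℕ → ℕ) (i : ℕ) : ℕ := Nat.mul (cco i) (ws f (nls i))

/-- the check of a certificate for `∑ TP = ∑ TN` -/
noncomputable def chkS (TB nl PB m : ℕ) (t : Tr) (TP TN : List (ℕ × ℕ)) : Bool :=
  t.all (okS TB nl PB m) && (Nat.beq (Nat.add (t.sum (wps bw)) (tw bw TN)) (Nat.add (t.sum (wns bw)) (tw bw TP)) &&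
    (Nat.ble (Nat.add (t.sum (wps one)) (tw one TN)) 4294967295 &&
      Nat.ble (Nat.add (t.sum (wns one)) (tw one TP)) 4294967295))

/-- the list of all left hand monomials -/
def LPs (L : List ℕ) : List (ℕ × ℕ) := L.flatMap fun i => (pls i).map fun m => (m, cco i)
def LNs (L : List ℕ) : List (ℕ × ℕ) := L.flatMap fun i => (nls i).map fun m => (m, cco i)

lemma lsum_LPs {M : Type} [AddCommMonoid M] (g : ℕ → M) (L : List ℕ) :
    lsum g (LPs L) = (L.map fun i => cco i • ((pls i).map g).sum).sum := by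
  induction L with
  | nil => rfl
  | cons a t ih => 
    show lsum g (((pls a).map fun m => (m, cco a)) ++ LPs t) = _
    rw [lsum_append, lsum_map, ih, List.map_cons, List.sum_cons]

lemma lsum_LNs {M : Type} [AddCommMonoid M] (g : ℕ → M) (L : List ℕ) :
    lsum g (LNs L) = (L.map fun i => cco i • ((nls i).map g).sum).sum := by
  induction L with
  | nil => rfl
  | cons a t ih => 
    show lsum g (((nls a).map fun m => (m, cco a)) ++ LNs t) = _
    rw [lsum_append, lsum_map, ih, List.map_cons, List.sum_cons]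

lemma sum_wps (f : ℕ → ℕ) (t : Tr) : t.sum (wps f) = lsum f (LPs t.leaves) := by
  rw [Tr.sum_eq, lsum_LPs]
  congr 1
  apply List.map_congr_left
  intro i _
  show cco i * ws f (pls i) = _
  rw [ws_eq, smul_eq_mul]

lemma sum_wns (f : ℕ → ℕ) (t : Tr) : t.sum (wns f) = lsum f (LNs t.leaves) := by
  rw [Tr.sum_eq, lsum_LNs]
  congr 1
  apply List.map_congr_left
  intro i _
  show cco i * ws f (nls i) = _
  rw [ws_eq, smul_eq_mul]

section
variable {R : Type} [NonUnitalNonAssocRing R] {P : ℕ → AddSubgroup R} (hR : SuperAlt R P)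
variable (TB nl PB : ℕ) (x : ℕ → R) (m : ℕ) (hwf : wf TB nl PB m = true) (hwl : wl PB nl = true)
  (hx : ∀ k < nl, x k ∈ P 1)
include hR hwf hwl hx

lemma sinst_eq (i : ℕ) (h : okS TB nl PB m i = true) :
    ((pls i).map (V TB nl x)).sum = ((nls i).map (V TB nl x)).sum := by
  unfold okS at h
  rw [Bool.and_eq_true, Nat.ble_eq] at h
  have h1 := swalk_sound hR TB nl PB x m hwf hwl hx _ _ _ _ _ _ _ h.1 h.2
  have h2 : ((sP i).map (V TB nl x)).sum = ((sN i).map (V TB nl x)).sum := by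
    have h1' : pv (Nat.div (cty i) 4) (V TB nl x (ca i)) (V TB nl x (cb i)) (V TB nl x (cc i)) (V TB nl x (cd i)) = 0 := h1
    unfold pv at h1'
    unfold sP sN
    cases e0 : Nat.beq (Nat.div (cty i) 4) 0 with
    | true =>
      rw [e0, cond_true] at h1'
      simp only [cond_true, List.map_cons, List.map_nil, List.sum_cons, List.sum_nil, add_zero]
      linear_combination (norm := abel) h1'
    | false =>
      rw [e0, cond_false] at h1'
      simp only [cond_false, List.map_cons, List.map_nil, List.sum_cons, List.sum_nil, add_zero]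
      linear_combination (norm := abel) h1'
  unfold pls nls
  cases csg i
  · exact h2.symm
  · exact h2

/-- soundness of certificates -/
theorem chkS_sound (t : Tr) (TP TN : List (ℕ × ℕ)) (h : chkS TB nl PB m t TP TN = true) :
    lsum (V TB nl x) TP = lsum (V TB nl x) TN := by
  unfold chkS at h
  simp only [Bool.and_eq_true, Nat.beq_eq, Nat.ble_eq] at h
  obtain ⟨h1, h2, h3, h4⟩ := h
  have h2' : t.sum (wps bw) + tw bw TN = t.sum (wns bw) + tw bw TP := h2
  have h3' : t.sum (wps one) + tw one TN ≤ 4294967295 := h3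
  have h4' : t.sum (wns one) + tw one TP ≤ 4294967295 := h4
  rw [sum_wps, sum_wns, tw_eq, tw_eq, ← lsum_append, ← lsum_append] at h2'
  rw [sum_wps, tw_eq, ← lsum_append] at h3'
  rw [sum_wns, tw_eq, ← lsum_append] at h4'
  have hbw : (bw : ℕ → ℕ) = fun m => (2 ^ 32) ^ m := by
    funext m
    show 2 ^ (32 * m) = _
    rw [pow_mul]
  rw [hbw] at h2'
  have h5 := lsum_inj (M := R) (2 ^ 32) _ _ (show lsum (fun _ => 1) (LPs t.leaves ++ TN) < 2 ^ 32 from by
    have : lsum (fun _ => 1) (LPs t.leaves ++ TN) ≤ 4294967295 := h3'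
    omega) (show lsum (fun _ => 1) (LNs t.leaves ++ TP) < 2 ^ 32 from by
    have : lsum (fun _ => 1) (LNs t.leaves ++ TP) ≤ 4294967295 := h4'
    omega) h2' (V TB nl x)
  rw [lsum_append, lsum_append, lsum_LPs, lsum_LNs] at h5
  have h6 : (t.leaves.map fun i => cco i • ((pls i).map (V TB nl x)).sum) =
      (t.leaves.map fun i => cco i • ((nls i).map (V TB nl x)).sum) := by
    apply List.map_congr_left
    intro i hi
    rw [sinst_eq hR TB nl PB x m hwf hwl hx i (Tr.all_iff _ t h1 i hi)]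
  rw [h6] at h5
  exact (add_left_cancel h5).symm

theorem smain (t : Tr) (TP TN : List (ℕ × ℕ × T))
    (h : chkS TB nl PB m t (keyL TP) (keyL TN) = true) (hP : repL TB nl TP = true) (hN : repL TB nl TN = true) :
    valL x TP = valL x TN := by
  rw [← repL_sound TB nl x TP hP, ← repL_sound TB nl x TN hN]
  exact chkS_sound hR TB nl PB x m hwf hwl hx t _ _ h

end

end Pool.Agent.R696.Tor.SCert
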