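import Pool.Agent.Helper817.AltCert
set_option autoImplicit false

/-! Commutative algebras in characteristic 3 given by sparse tables. -/

namespace Pool.Agent.R696.Tor.Tab
open Pool.Agent.Helper817.AltCert Pool.Agent.Helper928.Nuc.Tens

/-- natural coefficient of `k` in a sparse vector -/
def cfN (k : ℕ) : List (ℕ × ℕ) → ℕ
  | [] => 0
  | p :: L => Nat.add (cond (Nat.beq p.1 k) p.2 0) (cfN k L)

/-- sparse products -/
def mulL (t : ℕ → ℕ → List (ℕ × ℕ)) : List (ℕ × ℕ) → List (ℕ × ℕ) → List (ℕ × ℕ)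
  | [], _ => []
  | p :: L, L' => (L'.flatMap fun q => (t p.1 q.1).map fun r => (r.1, Nat.mul (Nat.mul p.2 q.2) r.2)) ++ mulL t L L'

/-- all coefficients are divisible by 3 -/
def z3 (L : List (ℕ × ℕ)) : Bool := L.all fun p => Nat.beq (Nat.mod (cfN p.1 L) 3) 0

/-- all indices are below `N` -/
def bdd (N : ℕ) (L : List (ℕ × ℕ)) : Bool := L.all fun p => Nat.ble (Nat.add p.1 1) N

def allN : ℕ → (ℕ → Bool) → Bool
  | 0, _ => true
  | n + 1, f => f n && allN n f

lemma allN_iff (n : ℕ) (f : ℕ → Bool) (h : allN n f = true) : ∀ i < n, f i = true := by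
  induction n with
  | zero => intro i hi; omega
  | succ n ih =>
    intro i hi
    have h' : (f n && allN n f) = true := h
    rw [Bool.and_eq_true] at h'
    rcases Nat.lt_succ_iff_lt_or_eq.mp hi with h1 | h1
    · exact ih h'.2 i h1
    · rw [h1]; exact h'.1

/-- the sum whose vanishing modulo 3 is the alternativity of the table -/
def JL (t : ℕ → ℕ → List (ℕ × ℕ)) (i j k : ℕ) : List (ℕ × ℕ) :=
  mulL t (t i j) [(k, 1)] ++ (mulL t (t j k) [(i, 1)] ++ mulL t (t k i) [(j, 1)])

/-- the complete check -/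
def chkT (N : ℕ) (t : ℕ → ℕ → List (ℕ × ℕ)) : Bool :=
  allN N fun i => allN (i + 1) fun j => (bdd N (t i j) && (bdd N (t j i) && decide (t i j = t j i))) &&
    allN (j + 1) fun k => z3 (JL t i j k)

variable (K : Type) [CommRing K] (N : ℕ) (t : ℕ → ℕ → List (ℕ × ℕ))

/-- the algebra -/
@[nolint unusedArguments]
def TA (K : Type) (N : ℕ) (_ : ℕ → ℕ → List (ℕ × ℕ)) : Type := Fin N → K

namespace TA
variable {K N t}

instance : AddCommGroup (TA K N t) := inferInstanceAs (AddCommGroup (Fin N → K))
instance : Module K (TA K N t) := inferInstanceAs (Module K (Fin N → K))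

/-- product -/
def mul (v w : TA K N t) : TA K N t :=
  fun k => ∑ i : Fin N, ∑ j : Fin N, (cfN k.1 (t i.1 j.1) : K) * (v i * w j)

instance : Mul (TA K N t) := ⟨mul⟩

lemma mul_def (v w : TA K N t) (k : Fin N) :
    (v * w) k = ∑ i : Fin N, ∑ j : Fin N, (cfN k.1 (t i.1 j.1) : K) * (v i * w j) := rfl

lemma add_ap (v w : TA K N t) (k : Fin N) : (v + w) k = v k + w k := rfl
lemma zero_ap (k : Fin N) : (0 : TA K N t) k = 0 := rfl
lemma smul_ap (r : K) (v : TA K N t) (k : Fin N) : (r • v) k = r * v k := rfl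

instance : NonUnitalNonAssocRing (TA K N t) where
  left_distrib := by
    intro a b c
    funext k
    rw [mul_def, add_ap, mul_def, mul_def, ← Finset.sum_add_distrib]
    refine Finset.sum_congr rfl fun i _ => ?_
    rw [← Finset.sum_add_distrib]
    refine Finset.sum_congr rfl fun j _ => ?_
    rw [add_ap]; ring
  right_distrib := by
    intro a b c
    funext k
    rw [mul_def, add_ap, mul_def, mul_def, ← Finset.sum_add_distrib]
    refine Finset.sum_congr rfl fun i _ => ?_
    rw [← Finset.sum_add_distrib]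
    refine Finset.sum_congr rfl fun j _ => ?_
    rw [add_ap]; ring
  zero_mul := by
    intro a
    funext k
    rw [mul_def, zero_ap]
    refine Finset.sum_eq_zero fun i _ => Finset.sum_eq_zero fun j _ => ?_
    rw [zero_ap]; ring
  mul_zero := by
    intro a
    funext k
    rw [mul_def, zero_ap]
    refine Finset.sum_eq_zero fun i _ => Finset.sum_eq_zero fun j _ => ?_
    rw [zero_ap]; ring

lemma smul_mul' (r : K) (v w : TA K N t) : (r • v) * w = r • (v * w) := by
  funext k
  rw [mul_def, smul_ap, mul_def, Finset.mul_sum]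
  refine Finset.sum_congr rfl fun i _ => ?_
  rw [Finset.mul_sum]
  refine Finset.sum_congr rfl fun j _ => ?_
  rw [smul_ap]; ring

lemma mul_smul' (r : K) (v w : TA K N t) : v * (r • w) = r • (v * w) := by
  funext k
  rw [mul_def, smul_ap, mul_def, Finset.mul_sum]
  refine Finset.sum_congr rfl fun i _ => ?_
  rw [Finset.mul_sum]
  refine Finset.sum_congr rfl fun j _ => ?_
  rw [smul_ap]; ring

/-- vector of a sparse list -/
def vec (L : List (ℕ × ℕ)) : TA K N t := fun k => (cfN k.1 L : K)

/-- basis vectors -/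
def e (i : ℕ) : TA K N t := vec [(i, 1)]

lemma e_ap (i : ℕ) (k : Fin N) : (e i : TA K N t) k = if i = k.1 then 1 else 0 := by
  show ((Nat.add (cond (Nat.beq i k.1) 1 0) 0 : ℕ) : K) = _
  cases h : Nat.beq i k.1 with
  | true =>
    have : i = k.1 := Nat.eq_of_beq_eq_true h
    rw [if_pos this]; simp
  | false =>
    have : i ≠ k.1 := Nat.ne_of_beq_eq_false h
    rw [if_neg this]; simp

lemma vec_nil : (vec [] : TA K N t) = 0 := by
  funext k
  show ((0 : ℕ) : K) = 0
  simp

lemma vec_cons (p : ℕ × ℕ) (L : List (ℕ × ℕ)) : (vec (p :: L) : TA K N t) = (p.2 : K) • e p.1 + vec L := by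
  funext k
  rw [add_ap, smul_ap, e_ap]
  show ((Nat.add (cond (Nat.beq p.1 k.1) p.2 0) (cfN k.1 L) : ℕ) : K) = _ + ((cfN k.1 L : ℕ) : K)
  cases h : Nat.beq p.1 k.1 with
  | true =>
    have : p.1 = k.1 := Nat.eq_of_beq_eq_true h
    rw [if_pos this]; simp
  | false =>
    have : p.1 ≠ k.1 := Nat.ne_of_beq_eq_false h
    rw [if_neg this]; simp

lemma vec_append (L L' : List (ℕ × ℕ)) : (vec (L ++ L') : TA K N t) = vec L + vec L' := by
  induction L with
  | nil => rw [List.nil_append, vec_nil, zero_add]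
  | cons p L ih => rw [List.cons_append, vec_cons, vec_cons, ih, add_assoc]

lemma vec_smul (c : ℕ) (L : List (ℕ × ℕ)) :
    (vec (L.map fun r => (r.1, Nat.mul c r.2)) : TA K N t) = (c : K) • vec L := by
  induction L with
  | nil => rw [List.map_nil, vec_nil, smul_zero]
  | cons p L ih =>
    rw [List.map_cons, vec_cons, vec_cons, ih, smul_add, smul_smul]
    congr 2
    show ((c * p.2 : ℕ) : K) = _
    push_cast; rfl

lemma e_mul_e {i j : ℕ} (hi : i < N) (hj : j < N) : (e i : TA K N t) * e j = vec (t i j) := by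
  funext k
  rw [mul_def, Finset.sum_eq_single (⟨i, hi⟩ : Fin N), Finset.sum_eq_single (⟨j, hj⟩ : Fin N)]
  · rw [e_ap, e_ap, if_pos rfl, if_pos rfl, mul_one, mul_one]; rfl
  · intro b _ hb
    rw [e_ap, e_ap, if_neg (fun h : j = b.1 => hb (Fin.ext h.symm)), mul_zero, mul_zero]
  · intro h; exact absurd (Finset.mem_univ _) h
  · intro b _ hb
    refine Finset.sum_eq_zero fun j' _ => ?_
    rw [e_ap, if_neg (fun h : i = b.1 => hb (Fin.ext h.symm)), zero_mul, mul_zero]
  · intro h; exact absurd (Finset.mem_univ _) h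

lemma e_mul_vec {i : ℕ} (hi : i < N) (c : ℕ) (L : List (ℕ × ℕ)) (hL : bdd N L = true) :
    (c : K) • ((e i : TA K N t) * vec L) = vec (L.flatMap fun q => (t i q.1).map fun r => (r.1, Nat.mul (Nat.mul c q.2) r.2)) := by
  induction L with
  | nil => rw [List.flatMap_nil, vec_nil, mul_zero, smul_zero]
  | cons q L ih =>
    unfold bdd at hL ih
    rw [List.all_cons, Bool.and_eq_true, Nat.ble_eq] at hL
    rw [vec_cons, mul_add, smul_add, ih hL.2, List.flatMap_cons, vec_append, vec_smul, mul_smul', e_mul_e hi hL.1, smul_smul]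
    congr 2
    show _ = ((c * q.2 : ℕ) : K)
    push_cast; rfl

lemma vec_mul (L L' : List (ℕ × ℕ)) (hL : bdd N L = true) (hL' : bdd N L' = true) :
    (vec L : TA K N t) * vec L' = vec (mulL t L L') := by
  induction L with
  | nil => rw [vec_nil, zero_mul]; unfold mulL; rw [vec_nil]
  | cons p L ih =>
    unfold bdd at hL ih
    rw [List.all_cons, Bool.and_eq_true, Nat.ble_eq] at hL
    unfold mulL
    rw [vec_cons, add_mul, ih hL.2, smul_mul', vec_append, e_mul_vec hL.1 p.2 L' hL']

lemma cfN_of_notMem (k : ℕ) (L : List (ℕ × ℕ)) (h : ∀ p ∈ L, p.1 ≠ k) : cfN k L = 0 := by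
  induction L with
  | nil => rfl
  | cons p L ih =>
    show Nat.add (cond (Nat.beq p.1 k) p.2 0) (cfN k L) = 0
    rw [ih (fun q hq => h q (by simp [hq]))]
    have h1 : p.1 ≠ k := h p (by simp)
    cases h2 : Nat.beq p.1 k with
    | true => exact absurd (Nat.eq_of_beq_eq_true h2) h1
    | false => rfl

lemma vec_z3 (h3 : (3 : K) = 0) (L : List (ℕ × ℕ)) (h : z3 L = true) : (vec L : TA K N t) = 0 := by
  unfold z3 at h
  rw [List.all_eq_true] at h
  funext k
  show ((cfN k.1 L : ℕ) : K) = 0
  by_cases hk : ∃ p ∈ L, p.1 = k.1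
  · obtain ⟨p, hp, hpk⟩ := hk
    have h1 := Nat.eq_of_beq_eq_true (h p hp)
    rw [hpk] at h1
    have h2 : cfN k.1 L % 3 = 0 := h1
    obtain ⟨c, hc⟩ := Nat.dvd_of_mod_eq_zero h2
    rw [hc]; push_cast
    rw [h3, zero_mul]
  · push Not at hk
    rw [cfN_of_notMem k.1 L hk]; simp

/-- linear maps vanishing on the basis vanish -/
lemma lin_zero {W : Type} [AddCommGroup W] [Module K W] (f : TA K N t →ₗ[K] W) (h : ∀ i < N, f (e i) = 0) (v : TA K N t) :
    f v = 0 := by
  have hv : v = ∑ i : Fin N, v i • (e i.1 : TA K N t) := by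
    funext k
    have : ∀ s : Finset (Fin N), (∑ i ∈ s, v i • (e i.1 : TA K N t)) k = ∑ i ∈ s, (v i • (e i.1 : TA K N t)) k := by
      intro s
      exact Finset.sum_apply k s (fun i => (v i • (e i.1 : TA K N t) : Fin N → K))
    rw [this, Finset.sum_eq_single k]
    · rw [smul_ap, e_ap, if_pos rfl, mul_one]
    · intro b _ hb
      rw [smul_ap, e_ap, if_neg (fun h : b.1 = k.1 => hb (Fin.ext h)), mul_zero]
    · intro h; exact absurd (Finset.mem_univ _) h
  rw [hv, map_sum]
  refine Finset.sum_eq_zero fun i _ => ?_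
  rw [map_smul, h i.1 i.2, smul_zero]

/-- `J` -/
def J (u v w : TA K N t) : TA K N t := (u * v) * w + ((v * w) * u + (w * u) * v)

/-- `J` as a linear map in the first argument -/
def J1 (v w : TA K N t) : TA K N t →ₗ[K] TA K N t where
  toFun u := J u v w
  map_add' := by intro a b; unfold J; simp only [add_mul, mul_add]; abel
  map_smul' := by intro r a; unfold J; simp only [smul_mul', mul_smul', smul_add, RingHom.id_apply]

lemma J_cyc (u v w : TA K N t) : J u v w = J v w u := by unfold J; abel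

lemma J_zero (h : ∀ i < N, ∀ j < N, ∀ k < N, J (e i : TA K N t) (e j) (e k) = 0) (u v w : TA K N t) : J u v w = 0 := by
  refine lin_zero (J1 v w) (fun i hi => ?_) u
  show J (e i) v w = 0
  rw [J_cyc]
  refine lin_zero (J1 w (e i)) (fun j hj => ?_) v
  show J (e j) w (e i) = 0
  rw [J_cyc]
  refine lin_zero (J1 (e i) (e j)) (fun k hk => ?_) w
  show J (e k) (e i) (e j) = 0
  exact h k hk i hi j hj

lemma comm_of (h : ∀ i < N, ∀ j < N, t i j = t j i) (u v : TA K N t) : u * v = v * u := by
  funext k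
  rw [mul_def, mul_def, Finset.sum_comm]
  refine Finset.sum_congr rfl fun i _ => Finset.sum_congr rfl fun j _ => ?_
  rw [h j.1 j.2 i.1 i.2]; ring

/-- the check implies alternativity (and commutativity) -/
theorem isAlt_of_chk (h3 : (3 : K) = 0) (h : chkT N t = true) :
    IsAlt (TA K N t) ∧ (∀ u v : TA K N t, u * v = v * u) ∧ (∀ i < N, ∀ j < N, bdd N (t i j) = true) := by
  have h1 : ∀ i < N, ∀ j < i + 1, (bdd N (t i j) = true ∧ bdd N (t j i) = true ∧ t i j = t j i) ∧
      ∀ k < j + 1, z3 (JL t i j k) = true := by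
    intro i hi j hj
    have a := allN_iff _ _ (allN_iff _ _ h i hi) j hj
    rw [Bool.and_eq_true, Bool.and_eq_true, Bool.and_eq_true, decide_eq_true_eq] at a
    exact ⟨⟨a.1.1, a.1.2.1, a.1.2.2⟩, fun k hk => allN_iff _ _ a.2 k hk⟩
  have hb : ∀ i < N, ∀ j < N, bdd N (t i j) = true := by
    intro i hi j hj
    rcases le_total j i with hle | hle
    · exact (h1 i hi j (by omega)).1.1
    · exact (h1 j hj i (by omega)).1.2.1
  have hc : ∀ i < N, ∀ j < N, t i j = t j i := by
    intro i hi j hj
    rcases le_total j i with hle | hle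
    · exact (h1 i hi j (by omega)).1.2.2
    · exact (h1 j hj i (by omega)).1.2.2.symm
  have hcomm := comm_of (K := K) hc
  have hJs : ∀ i < N, ∀ j < i + 1, ∀ k < j + 1, J (e i : TA K N t) (e j) (e k) = 0 := by
    intro i hi j hj k hk
    have hj' : j < N := by omega
    have hk' : k < N := by omega
    have hone : ∀ m < N, bdd N [(m, 1)] = true := by
      intro m hm
      unfold bdd
      rw [List.all_cons, List.all_nil, Bool.and_true, Nat.ble_eq]
      exact hm
    unfold J
    rw [e_mul_e hi hj', e_mul_e hj' hk', e_mul_e hk' hi]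
    have e1 : ∀ L, bdd N L = true → ∀ m < N, (vec L : TA K N t) * e m = vec (mulL t L [(m, 1)]) :=
      fun L hL m hm => vec_mul L [(m, 1)] hL (hone m hm)
    rw [e1 _ (hb i hi j hj') k hk', e1 _ (hb j hj' k hk') i hi, e1 _ (hb k hk' i hi) j hj', ← vec_append, ← vec_append]
    exact vec_z3 h3 _ ((h1 i hi j hj).2 k hk)
  have hsw : ∀ u v w : TA K N t, J u v w = J v u w := by
    intro u v w
    unfold J
    rw [hcomm u v, hcomm v w, hcomm w u]
    abel
  have hJ0 : ∀ i < N, ∀ j < N, ∀ k < N, J (e i : TA K N t) (e j) (e k) = 0 := by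
    intro i hi j hj k hk
    rcases le_total j i with h12 | h12 <;> rcases le_total k j with h23 | h23 <;> rcases le_total k i with h13 | h13
    · exact hJs i hi j (by omega) k (by omega)
    · exact hJs i hi j (by omega) k (by omega)
    · have := hJs i hi k (by omega) j (by omega)
      rw [hsw, J_cyc]; exact this
    · have := hJs k hk i (by omega) j (by omega)
      rw [← this, J_cyc, J_cyc, J_cyc]
    · have := hJs j hj i (by omega) k (by omega)
      rw [hsw]; exact this
    · have := hJs j hj k (by omega) i (by omega)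
      rw [J_cyc]; exact this
    · have := hJs k hk j (by omega) i (by omega)
      rw [J_cyc, hsw]; exact this
    · have := hJs k hk j (by omega) i (by omega)
      rw [J_cyc, hsw]; exact this
  have hJ := J_zero (K := K) hJ0
  have hl : ∀ a b : TA K N t, (a * a) * b = a * (a * b) := by
    intro a b
    have h4 := hJ a a b
    unfold J at h4
    rw [hcomm (a * b) a, hcomm (b * a) a, hcomm b a] at h4
    have h5 : (3 : K) • (a * (a * b)) = 0 := by rw [h3, zero_smul]
    have h6 : (3 : K) • (a * (a * b)) = a * (a * b) + (a * (a * b) + a * (a * b)) := by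
      rw [show (3 : K) = 1 + (1 + 1) by norm_num, add_smul, add_smul, one_smul]
    rw [h6] at h5
    have := h4.trans h5.symm
    exact add_right_cancel this
  refine ⟨⟨hl, ?_⟩, hcomm, hb⟩
  intro a b
  rw [hcomm (b * a) a, hcomm b a, ← hl a b, hcomm]

end TA

end Pool.Agent.R696.Tor.Tab
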